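import Pool.Agent.Helper14.W5.StD

/-!
# Project W5, module PRD: the product rule for degrees
-/

set_option autoImplicit false

namespace Pool.Agent.Helper63.W5.Prd

open Pool.Agent.Helper14.W5
open Pool.Agent.Helper14.CV (Homog EqC act Tl)

variable {q q' : ℕ}

private theorem comm : Commute (dX : Module.End (ZMod 5) (Fn5 q q')) dY := by
  refine LinearMap.ext fun F => ?_
  funext x y
  change (F (x + 1) (y + 1) - F (x + 1) y) - (F x (y + 1) - F x y)
    = (F (x + 1) (y + 1) - F x (y + 1)) - (F (x + 1) y - F x y)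
  ring

private theorem mono {d d' : ℤ} (h : d ≤ d') {F : Fn5 q q'} (hF : F ∈ Wd5 d) : F ∈ Wd5 d' :=
  fun i j hij => hF i j (lt_of_le_of_lt h hij)

private theorem dx_mem {d : ℤ} {F : Fn5 q q'} (hF : F ∈ Wd5 d) : dX F ∈ Wd5 (d - 1) := by
  intro i j hij
  have h := hF (i + 1) j (by push_cast; linarith)
  have e : (dX ^ (i + 1) * dY ^ j : Module.End (ZMod 5) (Fn5 q q')) = (dX ^ i * dY ^ j) * dX := by
    rw [pow_succ, mul_assoc, mul_assoc, (comm.pow_right j).eq]
  rw [e] at h
  exact h

private theorem dy_mem {d : ℤ} {F : Fn5 q q'} (hF : F ∈ Wd5 d) : dY F ∈ Wd5 (d - 1) := by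
  intro i j hij
  have h := hF i (j + 1) (by push_cast; linarith)
  have e : (dX ^ i * dY ^ (j + 1) : Module.End (ZMod 5) (Fn5 q q')) = (dX ^ i * dY ^ j) * dY := by
    rw [pow_succ, mul_assoc]
  rw [e] at h
  exact h

private theorem mem_of {d : ℤ} (hd : 0 ≤ d) {F : Fn5 q q'} (hx : dX F ∈ Wd5 (d - 1))
    (hy : dY F ∈ Wd5 (d - 1)) : F ∈ Wd5 d := by
  intro i j hij
  rcases Nat.eq_zero_or_pos i with hi | hi
  · subst hi
    obtain ⟨k, rfl⟩ : ∃ k, j = k + 1 := ⟨j - 1, by push_cast at hij; omega⟩
    have h := hy 0 k (by push_cast at hij ⊢; linarith)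
    have e : (dX ^ 0 * dY ^ (k + 1) : Module.End (ZMod 5) (Fn5 q q')) = (dX ^ 0 * dY ^ k) * dY := by
      rw [pow_succ, mul_assoc]
    rw [e]
    exact h
  · obtain ⟨k, rfl⟩ : ∃ k, i = k + 1 := ⟨i - 1, by omega⟩
    have h := hx k j (by push_cast at hij ⊢; linarith)
    have e : (dX ^ (k + 1) * dY ^ j : Module.End (ZMod 5) (Fn5 q q')) = (dX ^ k * dY ^ j) * dX := by
      rw [pow_succ, mul_assoc, mul_assoc, (comm.pow_right j).eq]
    rw [e]
    exact h

private theorem zero_of {d : ℤ} (hd : d < 0) {F : Fn5 q q'} (hF : F ∈ Wd5 d) : F = 0 := by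
  have h := hF 0 0 (by simpa using hd)
  simpa using h

private theorem shx {d : ℤ} {F : Fn5 q q'} (hF : F ∈ Wd5 d) : (fun x y => F (x + 1) y) ∈ Wd5 d := by
  have e : (fun x y => F (x + 1) y) = dX F + F := by
    funext x y
    change F (x + 1) y = (F (x + 1) y - F x y) + F x y
    ring
  rw [e]
  exact Submodule.add_mem _ (mono (by linarith) (dx_mem hF)) hF

private theorem shy {d : ℤ} {F : Fn5 q q'} (hF : F ∈ Wd5 d) : (fun x y => F x (y + 1)) ∈ Wd5 d := by
  have e : (fun x y => F x (y + 1)) = dY F + F := by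
    funext x y
    change F x (y + 1) = (F x (y + 1) - F x y) + F x y
    ring
  rw [e]
  exact Submodule.add_mem _ (mono (by linarith) (dy_mem hF)) hF

private theorem main (n : ℕ) : ∀ (d e : ℤ) (F G : Fn5 q q'), d + e < n → F ∈ Wd5 d → G ∈ Wd5 e →
    (fun x y => F x y * G x y) ∈ (Wd5 (d + e) : Submodule (ZMod 5) (Fn5 q q')) := by
  induction n with
  | zero =>
    intro d e F G h hF hG
    rcases lt_or_ge d 0 with hd | hd
    · rw [zero_of hd hF]
      have : (fun (x : ZMod q) (y : ZMod q') => (0 : Fn5 q q') x y * G x y) = 0 := by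
        funext x y
        simp
      rw [this]
      exact Submodule.zero_mem _
    · have he : e < 0 := by push_cast at h; linarith
      rw [zero_of he hG]
      have : (fun (x : ZMod q) (y : ZMod q') => F x y * (0 : Fn5 q q') x y) = 0 := by
        funext x y
        simp
      rw [this]
      exact Submodule.zero_mem _
  | succ n ih =>
    intro d e F G h hF hG
    rcases lt_or_ge d 0 with hd | hd
    · rw [zero_of hd hF]
      have : (fun (x : ZMod q) (y : ZMod q') => (0 : Fn5 q q') x y * G x y) = 0 := by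
        funext x y
        simp
      rw [this]
      exact Submodule.zero_mem _
    rcases lt_or_ge e 0 with he | he
    · rw [zero_of he hG]
      have : (fun (x : ZMod q) (y : ZMod q') => F x y * (0 : Fn5 q q') x y) = 0 := by
        funext x y
        simp
      rw [this]
      exact Submodule.zero_mem _
    push_cast at h
    refine mem_of (by linarith) ?_ ?_
    · have h1 := ih (d - 1) e (dX F) (fun x y => G (x + 1) y) (by linarith) (dx_mem hF) (shx hG)
      have h2 := ih d (e - 1) F (dX G) (by linarith) hF (dx_mem hG)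
      have e1 : (d - 1) + e = d + e - 1 := by ring
      have e2 : d + (e - 1) = d + e - 1 := by ring
      rw [e1] at h1
      rw [e2] at h2
      have h3 := Submodule.add_mem _ h1 h2
      refine (congrArg (· ∈ (Wd5 (d + e - 1) : Submodule (ZMod 5) (Fn5 q q'))) ?_).mp h3
      funext x y
      change (F (x + 1) y - F x y) * G (x + 1) y + F x y * (G (x + 1) y - G x y)
        = F (x + 1) y * G (x + 1) y - F x y * G x y
      ring
    · have h1 := ih (d - 1) e (dY F) (fun x y => G x (y + 1)) (by linarith) (dy_mem hF) (shy hG)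
      have h2 := ih d (e - 1) F (dY G) (by linarith) hF (dy_mem hG)
      have e1 : (d - 1) + e = d + e - 1 := by ring
      have e2 : d + (e - 1) = d + e - 1 := by ring
      rw [e1] at h1
      rw [e2] at h2
      have h3 := Submodule.add_mem _ h1 h2
      refine (congrArg (· ∈ (Wd5 (d + e - 1) : Submodule (ZMod 5) (Fn5 q q'))) ?_).mp h3
      funext x y
      change (F x (y + 1) - F x y) * G x (y + 1) + F x y * (G x (y + 1) - G x y)
        = F x (y + 1) * G x (y + 1) - F x y * G x y
      ring

end Pool.Agent.Helper63.W5.Prd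

namespace Pool.Agent.Helper63.W5

open Pool.Agent.Helper14.W5
open Pool.Agent.Helper14.CV (Homog EqC act Tl)

/-- MODULE PRD. -/
theorem hPrd : S5Prd := by
  intro r s d e F G hF hG
  exact Prd.main ((d + e + 1).toNat) d e F G (by
    have := Int.self_le_toNat (d + e + 1)
    linarith) hF hG

end Pool.Agent.Helper63.W5
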